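import Pool.Agent.V8H45.TE.MainE

/-!
# A balanced deterministic context-free language, both sides of which are hard on average

The definitions used in the statement are in `Pool.Agent.V8H39.SR.DDefs` (the alphabet `Sy`,
patterns of words and `fillBits`, the class `oneDPDA` of the languages of deterministic one-way
pushdown automata), `Pool.Agent.V8H47.MH.Defs` (automata) and `Pool.Agent.V8H39.SR.BDefs`
(nondeterministic branching programs `NBP`, `Accepts`, `Path`).

Branching programs of polynomial size are the nonuniform form of nondeterministic logarithmic space.
If every context-free language were in `NSPACE(log n)` then, since this class is closed under
complements, each context-free language and its complement would have nondeterministic branching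
programs of polynomial size.

There is a deterministic context-free language `U` with the following property. For each `k` there
are a constant `C` and, for each `n`, a word `p n` of polynomial length in which `n` letters are
variable bits, each variable once and in this order, such that the following holds for all `n` and
`E` with `C (E + 1) ≤ log n`. For exactly half of the inputs `x` the word `p n` with the bits `x` is
in `U`. Consider a nondeterministic branching program with at most `n ^ E` nodes in which the bits
are read at most `k` times on average on every path from the start to the accepting node (consistent
or not; the bound for a bit does not depend on the path). If `w` of the inputs that it accepts are not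
in `U` (`c = true`), then it accepts at most `2 ^ n / 2 ^ E + n ^ (C (E + 1)) w` inputs. The same
holds if `w` of the inputs that it accepts are in `U` (`c = false`). So

* a program of this kind which accepts only members, or only nonmembers, accepts at most a part
  `1 / 2 ^ E` of all inputs;
* `U` and its complement both need programs of this kind of size `n ^ Ω(log n)`; this is best
  possible up to the constant, since the tree described below can be evaluated depth first, which
  reads each bit once and needs `n ^ O(log n)` nodes;
* for `E ≥ 3`, each program of this kind with `n ^ E` nodes differs from `U`, and from its
  complement, on at least a part `1 / n ^ (C (E + 1))` of the inputs.

The proof. The word describes a tree over the field with `2 ^ b` elements in which the value of an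
inner node is the value of its block of bits plus the product of the values of the children, and
asks whether the value of the root is in a set `T` that contains half of the field. In a program
of this kind the reads of some bits can be put in order by a Ramsey argument, so that there are
sets `A` and `B` of bits in alternating subtrees along a path of the tree, such that the program
alternates only a few times between `A` and `B`, but the value of the root as a function of `A` and
`B` is an inner product, in a number of dimensions proportional to `log n`, of two vectors that are
spread over the whole space (after all the other bits are fixed). By a second moment argument, for two
large sets of vectors the inner product is in `T` for a constant part of the pairs, and also not in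
`T`. So in each of the few combinatorial rectangles that cover the accepted inputs a constant part
of the inputs is wrong, unless the rectangle is small.
-/

namespace Pool.Agent.Results.MP_6216ea_lc.BothSidesFewReads

open Finset Pool.Agent.V8H39.SR Pool.Agent.V8H47.MH

/-- A deterministic context-free language such that, for certain words with `n` variable bits, half of
the inputs are in the language, and nondeterministic branching programs of size `n ^ E` that read the
bits a bounded number of times on average, with few errors, for the language or for its complement,
accept few inputs. -/
theorem result : ∃ U ∈ oneDPDA Sy, ∀ k, ∃ (C : ℕ) (p : ∀ n, List (Sy ⊕ Fin n)),
    (∀ n, (p n).length ≤ (n + 2) ^ 5 ∧ (p n).filterMap Sum.getRight? = List.finRange n) ∧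
    ∀ n E, C * (E + 1) ≤ Nat.log 2 n →
      2 * Nat.card {x : Fin n → Bool // fillBits (p n) x ∈ U} = 2 ^ n ∧
      ∀ (c : Bool) (B : NBP (Fin n)), Fintype.card B.Node ≤ n ^ E →
        (∃ κ : Fin n → ℕ, ∑ v, κ v ≤ k * n ∧ ∀ L, B.Path L → ∀ v, L.count v ≤ κ v) →
        2 ^ E * Nat.card {x // B.Accepts x} ≤ 2 ^ n +
          n ^ (C * (E + 1)) *
            Nat.card {x // B.Accepts x ∧ ¬ (fillBits (p n) x ∈ U ↔ c = true)} :=
  Pool.Agent.V8H45.TE.mainE

end Pool.Agent.Results.MP_6216ea_lc.BothSidesFewReads
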