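import Pool.Agent.V8H47.NLK.NLSide
import Pool.Agent.V8H47.NLK.CFSide

/-!
# A dichotomy for the rational cones of the languages `D ∩ R`

Let `D` be the semi-Dyck language over finitely many pairs of brackets and let `R` be a regular
language over the brackets. Either every context-free language is an image of `D ∩ R` under a
rational transduction, or all images of `D ∩ R` under rational transductions are accepted by
two-way nondeterministic multihead finite automata, i.e. belong to NL.
-/

namespace Pool.Agent.Results.MP_6216ea_lc.DyckRegularCones

open Pool.Agent.V8H47.NLK Pool.Agent.V8H47.MH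

theorem result :
    -- (1) rich `R`: all context-free languages are rational images of `D ∩ R`
    (∀ (S : Type) [Finite S] [DecidableEq S] (R : Language (S × Bool)), R.IsRegular → Rich R →
      ∀ (T : Type) [Finite T] (L : Language T), L.IsContextFree → RatImage (dyck S ⊓ R) L) ∧
    -- (2) other `R`: all rational images of `D ∩ R` are in NL
    (∀ (S : Type) [Finite S] [DecidableEq S] (R : Language (S × Bool)), R.IsRegular → ¬ Rich R →
      ∀ (T : Type) [Finite T] (L : Language T), RatImage (dyck S ⊓ R) L →
        ∃ k, L ∈ twoNFA k T) :=
  ⟨fun _ _ _ _ _ h _ _ _ hL => cf_side h hL, fun _ _ _ _ hR h _ _ _ hL => nl_side hR h hL⟩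

end Pool.Agent.Results.MP_6216ea_lc.DyckRegularCones
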