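import Pool.Agent.V8H86.TN.Err

/-!
# Frugal nondeterministic branching programs do not recognise properties of evaluated trees

The tree evaluation problem (`2 ^ m` leaves with numbers in `Fin k`, a `k * k` table at each inner
node; the value of an inner node is the entry in the row given by the value of its left child and
in the column given by the value of its right child; does the value of the root have the property
`g`?) is in LogDCFL, hence in the log-space closure of the (deterministic) context-free languages.
If it was in nondeterministic logarithmic space, there would be nondeterministic branching programs
with polynomially many states that accept exactly the inputs with the property `g`.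

A nondeterministic program is `t`-frugal on an input if for every inner node, each of its two
children and every state that can be reached, all computations that start in this state and do not
read the variable that gives the value of the child can read together at most `t` different entries
of the right line of the table for this child (the entries obtained from the right entry by changing
the value of this child). The entries in a wrong row and a wrong column are free, and the number of
reads is not bounded.

* Let `w < k` be the number of values with the property `g`. For every program with `|Q|` states,
  the fraction of the inputs with the property that are accepted frugally is at most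
  `w / (k - w)` times the fraction of the inputs that are accepted and do not have the property,
  plus `2 ^ (m + 1) * t / k + |Q| * (2 * m ^ 2 * t / k) ^ m` (all fractions are fractions of all
  inputs). The first term cannot be avoided: a program that accepts everything without reading
  anything is frugal.
* So if the program accepts only inputs with the property, then it accepts and is `t`-frugal on at
  most a fraction `2 ^ (m + 1) * t / k + |Q| * (2 * m ^ 2 * t / k) ^ m` of all inputs, whatever the
  share of the inputs with the property is.
* So it has at least `(δ / 2) * (k / (2 * m ^ 2 * t)) ^ m` states if this fraction is at least `δ`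
  and `2 ^ (m + 2) * t ≤ δ * k`.
* For `k = 2 ^ ((d + e + 2) * m)`, `t = 2 ^ (d * m)` and at most `2 ^ (e * m ^ 2 - m)` states,
  that is `n ^ (c * log n)` states where `n` is the length of the input, the fraction is at most
  `3 / 2 ^ m`. Here `t = k ^ (1 - ε)` with any fixed `ε > 0`. As `g` is arbitrary, this holds for
  the set of the inputs with the property and for its complement.

The deterministic programs are treated in `MP_5e85fc_lc.FrugalTreeEvaluation`, with errors on both
sides and a slightly weaker restriction. In the nondeterministic case the values of the pebbles are
coded by their ranks among the values that can be tried after the pebbles whose parents are used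
earlier in the accepting computation are known.
-/

namespace Pool.Agent.Results.MP_6216ea_lc.FrugalNondeterminism

open Pool.Agent.V8H86.TE Pool.Agent.V8H86.TN

theorem result (k m t : ℕ) [NeZero k] (Q : Type) [Fintype Q] (B : NProg k Q)
    (g : Fin k → Prop) :
    -- accepted, frugal and with the property, for programs with errors
    (((k : ℝ) - {c | g c}.ncard) * Nat.card {I : Input m k //
          B.Accepts (look I) ∧ B.Frugal m t (look I) ∧ g (nodeValue m (look I) [])} ≤
        {c | g c}.ncard *
          Nat.card {I : Input m k // B.Accepts (look I) ∧ ¬ g (nodeValue m (look I) [])} +
        ((k : ℝ) - {c | g c}.ncard) *
          (2 ^ (m + 1) * t / k + Fintype.card Q * (2 * m ^ 2 * t / k) ^ m) *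
          Nat.card (Input m k)) ∧
    -- programs without wrongly accepted inputs
    ((∃ c, ¬ g c) →
      (∀ I : Input m k, B.Accepts (look I) → g (nodeValue m (look I) [])) →
      -- accepted and frugal
      ((Nat.card {I : Input m k // B.Accepts (look I) ∧ B.Frugal m t (look I)} : ℝ) ≤
        (2 ^ (m + 1) * t / k + Fintype.card Q * (2 * m ^ 2 * t / k) ^ m) *
          Nat.card (Input m k)) ∧
      -- accepted and frugal for a fraction `δ` of the inputs
      (∀ δ : ℝ, 0 < m → 2 ^ (m + 2) * t ≤ δ * k →
        δ * Nat.card (Input m k) ≤
          Nat.card {I : Input m k // B.Accepts (look I) ∧ B.Frugal m t (look I)} →
        δ * ((k : ℝ) / (2 * m ^ 2 * t)) ^ m ≤ 2 * Fintype.card Q) ∧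
      -- tables of polynomial size
      (∀ d e : ℕ, k = 2 ^ ((d + e + 2) * m) → t = 2 ^ (d * m) →
        2 ^ m * Fintype.card Q ≤ 2 ^ (e * m ^ 2) →
        (Nat.card {I : Input m k // B.Accepts (look I) ∧ B.Frugal m t (look I)} : ℝ) ≤
          3 / 2 ^ m * Nat.card (Input m k))) ∧
    -- a program is frugal if all computations read few entries of the right lines together
    (∀ I : Input m k, (∀ (p : List Bool) (b : Bool), p.length < m →
        {c | ∃ f n, B.Path (look I) B.start f n ∧
          B.label (f n) = some (line m (look I) p b c)}.ncard ≤ t) →
      B.Frugal m t (look I)) :=
  ⟨main_err B g rfl m t, fun hg hB => ⟨main' B g hg m t hB, fun δ hm => main_adv B g hg m t hB hm δ,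
    fun d e hk ht hQ => main_power B g hg m t d e hB hk ht hQ⟩, fun _ h => frugal_of_total h⟩

end Pool.Agent.Results.MP_6216ea_lc.FrugalNondeterminism
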