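import Pool.Agent.V8H47.MH.OneWayDefs
import Pool.Agent.V8H47.MH.Content

/-!
# Context-free languages with restricted contents of the pushdown store: a dichotomy

The definitions used in the statement are in `Pool.Agent.V8H47.MH.Defs` (automata, `twoNFA`),
`Pool.Agent.V8H47.MH.ContDefs` (`PolyGrowth`) and `Pool.Agent.V8H47.MH.OneWayDefs` (`CFL`, `CFLIn`).

Let `R` be a regular language over the pushdown alphabet which contains the empty word. Let
`CFLIn R` be the family of the context-free languages that are accepted by one-way pushdown automata
all of whose store contents, read from the bottom to the top, are in `R`. Let `g n` be the number of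
words of length `n` all of whose prefixes are in `R`.

* If `g` is bounded by a polynomial then all the languages in `CFLIn R` are accepted by
  nondeterministic two-way multihead finite automata, that is, in nondeterministic logarithmic space.
  (For `R = {1}*` this is the family of the one-counter languages.)
* Otherwise `CFLIn R` is the family of all context-free languages.

Idea. If `g` is not polynomially bounded then the automaton of `R` has two different cycles through
one state, and any store can be coded in `R`, symbol by symbol, with the top symbol kept in the
finite control. Otherwise all the strongly connected components of the automaton of `R` are cycles,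
and a content is described by a bounded number of counters. Accepting runs can be chosen with
polynomially bounded height, and a counter with polynomially bounded values is simulated by heads
which run through the reflected numeration of the tuples of positions.
-/

namespace Pool.Agent.Results.MP_6216ea_lc.StoreDisciplines

open Pool.Agent.V8H47.MH

/-- The dichotomy for the contents of the store of one-way pushdown automata. -/
theorem result {Γ : Type} [Finite Γ] (R : Set (List Γ)) (hreg : Language.IsRegular R)
    (h0 : [] ∈ R) :
    (PolyGrowth R → ∀ α : Type, CFLIn R α ⊆ ⋃ k, twoNFA k α) ∧
    (¬ PolyGrowth R → ∀ α : Type, CFLIn R α = CFL α) := by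
  obtain ⟨h1, h2⟩ := content_dichotomy (R := R) hreg h0
  constructor
  · rintro hp α L ⟨M, _, hM, rfl⟩
    obtain ⟨m, M', _, h4⟩ := h2 hp α 1 M hM
    exact Set.mem_iUnion.2 ⟨m, M', h4⟩
  · intro hp α
    ext L
    constructor
    · rintro ⟨M, ho, _, rfl⟩
      exact ⟨Γ, inferInstance, M, ho, rfl⟩
    · rintro ⟨Δ, _, M, ho, rfl⟩
      obtain ⟨M', _, h4, h5, h6⟩ := h1 hp α (Fin 1) Δ M
      exact ⟨M', h6 ho, h5, h4⟩

end Pool.Agent.Results.MP_6216ea_lc.StoreDisciplines
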